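import Pool.Agent.TH116.ZC.Single

/-!
# Murre's conjecture (D) in the middle codimension

`𝒱` is a class of smooth projective geometrically irreducible varieties over the field `k` closed
under products (for example all of them, with `k = ℂ`), `C` the Chow groups with rational
coefficients (in the form of their formal properties, `IsChowProj`) and `H` a Weil cohomology theory
(`IsWeilProj`). `MurreD H X` is the statement of the problem for `X`, all `i` and all Chow-Kunneth
decompositions of `X`.

The hypothesis `HasGenericCurves` is a known fact over uncountable algebraically closed fields:
exterior products with generic zero-cycles of degree zero on generic curves are injective (see the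
argument in its comment).

(1) `F^1 CH^i(X) = CH^i(X)_hom` holds for all `X` (and all `i` and all Chow-Kunneth decompositions) if
it holds whenever `dim X = 2 i`.

(2) All `X` have Chow-Kunneth decompositions and all of them satisfy (D) if and only if the Kunneth
standard conjecture holds and, for all `X` of even dimension `2 i`, each self-correspondence of
degree zero of `X` which acts as zero on `H^j(X)` for `j ≠ 2 i` is locally nilpotent on
`CH^i(X)_hom`.

Proof. (1) Let `x ∈ CH^i(X)` be homologically trivial and let `j ≥ 2 i`; we have to show that
`y = (π_j)_* x` is zero. If `j > 2 i` and `y ≠ 0`, then `y × t ≠ 0` for a generic zero-cycle `t` of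
degree zero on a curve `T`; for a suitable Chow-Kunneth decomposition of `X × T` it has weight
`j + 1` and codimension `i + 1`. So one reduces to `j = 2 i`. Taking exterior products with points of
curves (if `2 i < dim X`) or with curves (if `2 i > dim X`) one reduces to `dim X = 2 i`.
(2) By (D) for `X × X`, homologically trivial correspondences strictly lower weights, and classes in
`CH^i(X)_hom` have weights `< 2 i`; so nilpotence in the middle codimension follows. Conversely, apply
it to `Δ × γ` on `X × X` to see that homologically trivial `γ` are nilpotent, so that Chow-Kunneth
decompositions exist, and to the projector `π_(2 i)` of `X`, `dim X = 2 i`.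
-/

open CategoryTheory AlgebraicGeometry

set_option autoImplicit false

universe u v w

namespace Pool.Agent.Results.MP_583472_ag.MiddleCodimension

open Pool.Agent.H914 Pool.Agent.W492.BB Pool.Agent.TH133 Pool.Agent.TH116.ZC

/-- Over an uncountable algebraically closed field (used through `HasGenericCurves`): (D) holds for
all `X` and all codimensions if and only if it holds in the middle codimension; and (A) and (D) hold
for all `X` if and only if the Kunneth standard conjecture and nilpotence in the middle codimension
hold. -/
theorem result {k : Type u} [Field k] {𝒱 : VarClass k} (C : TheoryData.{u, v, 0} 𝒱 ℚ)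
    [IsChowProj C] {K : Type w} [Field K] (H : WeilTheoryData.{u, v, w} C K) [IsWeilProj H]
    (hE : HasGenericCurves C) :
    ((∀ X : 𝒱.Obj, MurreD H X) ↔ ∀ (X : 𝒱.Obj) (i : ℕ), X.dim = 2 * i →
      ∀ π, IsCK H X π → ∀ x : C.A X, x ∈ ckFil C π i 1 ↔ C.Deg i x ∧ H.cl x = 0) ∧
    ((∀ X : 𝒱.Obj, (∃ π : ℕ → C.A (X.prod X), IsCK H X π) ∧ MurreD H X) ↔
      KunnethConjecture H ∧ ∀ X : 𝒱.Obj, NilpotentInMiddleCodim H X) :=
  ⟨murreD_iff_middle hE, murreAD_iff hE⟩

end Pool.Agent.Results.MP_583472_ag.MiddleCodimension
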