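import Pool.Agent.TH133.MurreD

/-!
# Murre's conjecture (D) and homologically trivial correspondences

`𝒱` is a class of smooth projective geometrically irreducible varieties over the field `k` closed
under products (for example all of them), `C` the Chow groups with rational coefficients (in the
form of their formal properties, `IsChowProj`) and `H` a Weil cohomology theory (`IsWeilProj`).

For a variety `X` of dimension `d`:

* `MurreD H X`: for all Chow-Kunneth decompositions `π` of `X` and all `i` the group
  `F^1 CH^i(X) = (π_{2i-1} + ⋯ + π_0)_* CH^i(X)` is the group of homologically trivial cycles;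
* `MurreB0 H X`: `F^0 CH^i(X) = CH^i(X)` for all Chow-Kunneth decompositions of `X` and all `i`;
* `MurreC H X`: the filtration does not depend on the Chow-Kunneth decomposition;
* `StrictlyLowers H X`: `π_b ∘ γ ∘ π_a = 0` for all Chow-Kunneth decompositions `π` of `X`, all
  homologically trivial `γ ∈ CH^d(X × X)` and all `a ≤ b` (here `γ ∘ δ` means: first `δ`, then `γ`);
* `UniqueUpToConjugation H X`: any two Chow-Kunneth decompositions of `X` are conjugate by a unit of
  the ring of self-correspondences of degree zero which acts as the identity on cohomology;
* `NilpotentOfIndex H X n`: the composition of any `n` homologically trivial self-correspondences of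
  degree zero is zero.

(D) for `X × X` implies that homologically trivial correspondences strictly lower the weights, and
this property implies all of the other ones for `X`, including (D) for `X`. So (D), for all
varieties, is a statement about correspondences only, and it implies (C) and the first half of (B).
-/

open CategoryTheory AlgebraicGeometry

set_option autoImplicit false

universe u v w

namespace Pool.Agent.Results.MP_583472_ag.StrictLowering

open Pool.Agent.H914 Pool.Agent.W492.BB Pool.Agent.TH133

/-- (D) for `X × X` implies that homologically trivial self-correspondences of `X` strictly lower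
weights; this implies (D), (C), the first half of (B), the uniqueness of Chow-Kunneth decompositions
up to unipotent conjugation and the nilpotence (of index `2 dim X + 1`) of homologically trivial
correspondences for `X`. So the conjecture (D) for all varieties is equivalent to the strict lowering
of weights by homologically trivial self-correspondences of all varieties. -/
theorem result {k : Type u} [Field k] {𝒱 : VarClass k} (C : TheoryData.{u, v, 0} 𝒱 ℚ)
    [IsChowProj C] {K : Type w} [Field K] (H : WeilTheoryData.{u, v, w} C K) [IsWeilProj H] :
    (∀ X : 𝒱.Obj, MurreD H (X.prod X) → StrictlyLowers H X) ∧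
      (∀ X : 𝒱.Obj, StrictlyLowers H X → MurreD H X ∧ MurreC H X ∧ MurreB0 H X ∧
        UniqueUpToConjugation H X ∧
        ((∃ π : ℕ → C.A (X.prod X), IsCK H X π) → NilpotentOfIndex H X (2 * X.dim + 1))) ∧
      ((∀ X : 𝒱.Obj, MurreD H X) ↔ ∀ X : 𝒱.Obj, StrictlyLowers H X) :=
  ⟨strictlyLowers_of_D, fun X h => ⟨murreD_of_strictlyLowers X h, murreC_of_strictlyLowers X h,
    murreB0_of_D X (murreD_of_strictlyLowers X h), unique_of_strictlyLowers X h,
    nilpotent_of_strictlyLowers X h⟩,
    ⟨fun h X => strictlyLowers_of_D X (h _), fun h X => murreD_of_strictlyLowers X (h X)⟩⟩

end Pool.Agent.Results.MP_583472_ag.StrictLowering
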